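import Mathlib
import Pool.Agent.H38R3.TPDefs
import Pool.Agent.H38R3.TPNeg
import Pool.Agent.TH770.PP.J_K1

/-!
# Monochromatic transfinite paths for an arbitrary infinite number of colours: definitions
# and the lower bound for the cofinality
-/

set_option autoImplicit false

namespace Pool.Agent.Y403.TP

open Cardinal Ordinal Set Pool.H38R3.TransPath

universe u

/-- The graph formed by the edges of colour `i` of an edge colouring `c` of the complete graph
on `V` (the values of `c` on the diagonal play no role). -/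
def colGraph {V C : Type u} (c : Sym2 V → C) (i : C) : SimpleGraph V where
  Adj x y := x ≠ y ∧ c s(x, y) = i
  symm := ⟨fun x y h => ⟨h.1.symm, by rw [Sym2.eq_swap]; exact h.2⟩⟩
  loopless := ⟨fun x h => h.1 rfl⟩

/-- The class `ℙ_μ` of infinite cardinals `κ` such that every colouring of the edges of the
complete graph on `κ` vertices with `μ` colours admits a monochromatic (transfinite) path of
size `κ`. -/
def PathCards (μ : Cardinal.{u}) : Set Cardinal.{u} :=
  {κ | ℵ₀ ≤ κ ∧ ∀ V : Type u, #V = κ → ∀ C : Type u, #C = μ → ∀ c : Sym2 V → C,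
    ∃ (i : C) (P : (colGraph c i).Subgraph), IsTransPath P.coe ∧ #P.verts = κ}

/-- A colouring of pairs each of whose colour classes is a union of stars centred at their least
points. -/
theorem exists_star {I C : Type u} [LinearOrder I] [Infinite C] (hI : ∀ i : I, #(Iio i) ≤ #C)
    (hc : #I ≤ 2 ^ #C) : ∃ g : I → I → C,
      (∀ i i' j, i < j → i' < j → g i j = g i' j → i = i') ∧
      (∀ i j k, i < j → j < k → g i j ≠ g j k) := by
  classical
  have h1 : #I ≤ #(Set C) := by rw [Cardinal.mk_set]; exact hc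
  obtain ⟨F⟩ := h1
  have hC : ℵ₀ ≤ #C := Cardinal.aleph0_le_mk C
  have hsep : ∀ i j : I, i ≠ j → ∃ m : C, ¬ (m ∈ F i ↔ m ∈ F j) := by
    intro i j hij
    by_contra hcon
    push Not at hcon
    exact hij (F.injective (Set.ext fun m => hcon m))
  have he : ∀ j : I, ∃ e : Iio j → C, Function.Injective e := fun j => by
    obtain ⟨e⟩ := hI j
    exact ⟨e, e.injective⟩
  choose e he using he
  have henc : #(C × ULift.{u} Bool × C) ≤ #C := by
    rw [Cardinal.mk_prod, Cardinal.mk_prod]
    simp only [Cardinal.lift_id]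
    refine Cardinal.mul_le_of_le hC le_rfl (Cardinal.mul_le_of_le hC ?_ le_rfl)
    refine le_trans ?_ hC
    exact Cardinal.mk_le_aleph0
  obtain ⟨enc⟩ := henc
  have hne : Nonempty C := inferInstance
  obtain ⟨c0⟩ := hne
  let m : I → I → C := fun i j => if h : i ≠ j then (hsep i j h).choose else c0
  have hm : ∀ i j, i ≠ j → ¬ (m i j ∈ F i ↔ m i j ∈ F j) := by
    intro i j hij
    simp only [m, dif_pos hij]
    exact (hsep i j hij).choose_spec
  refine ⟨fun i j => enc
    (m i j, ULift.up (decide (m i j ∈ F i)), if h : i < j then e j ⟨i, h⟩ else c0), ?_, ?_⟩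
  · intro i i' j hij hij' h
    have h2 := enc.injective h
    simp only [Prod.mk.injEq, dif_pos hij, dif_pos hij'] at h2
    exact congrArg Subtype.val (he j h2.2.2)
  · intro i j k hij hjk h
    have h2 := enc.injective h
    simp only [Prod.mk.injEq, ULift.up_inj, decide_eq_decide] at h2
    obtain ⟨h3, h4, -⟩ := h2
    apply hm i j hij.ne
    rw [← h3] at h4
    exact h4

/-- Every element of `ℙ_μ` has cofinality at least `μ⁺⁺`. -/
theorem succ_succ_le_cof {μ κ : Cardinal.{u}} (hμ : ℵ₀ ≤ μ) (hκ : κ ∈ PathCards μ) :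
    Order.succ (Order.succ μ) ≤ κ.ord.cof := by
  classical
  by_contra hcof
  push Not at hcof
  obtain ⟨hinf, hall⟩ := hκ
  have hcof1 : κ.ord.cof ≤ Order.succ μ := Order.lt_succ_iff.mp hcof
  let C : Type u := μ.out
  have hC : #C = μ := Cardinal.mk_out μ
  have hCinf : Infinite C := by
    rw [Cardinal.infinite_iff, hC]
    exact hμ
  obtain ⟨s, hs, hs'⟩ := Ordinal.exists_ord_cof_eq κ.ord.ToType
  rw [Ordinal.cof_toType] at hs'
  -- block map
  have hex : ∀ k : κ.ord.ToType, ∃ i : s, k ≤ i.1 := by
    intro k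
    obtain ⟨i, hi, hki⟩ := hs k
    exact ⟨⟨i, hi⟩, hki⟩
  have hwfs : WellFounded ((· < ·) : s → s → Prop) := wellFounded_lt
  let blk : κ.ord.ToType → s := fun k => hwfs.min {i : s | k ≤ i.1} (hex k)
  have hblk : ∀ k, k ≤ (blk k).1 := fun k => hwfs.min_mem {i : s | k ≤ i.1} (hex k)
  have hfib : ∀ i : s, #{k : κ.ord.ToType | blk k = i} < κ := by
    intro i
    have h1 : {k : κ.ord.ToType | blk k = i} ⊆ Set.Iic i.1 := by
      intro k hk
      have := hblk k
      rw [hk] at this
      exact this
    refine lt_of_le_of_lt (Cardinal.mk_le_mk_of_subset h1) ?_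
    have h2 : Set.Iic i.1 ⊆ Set.Iio i.1 ∪ {i.1} := by
      intro x hx
      rcases lt_or_eq_of_le (show x ≤ i.1 from hx) with h | h
      · exact Or.inl h
      · exact Or.inr h
    refine lt_of_le_of_lt (Cardinal.mk_le_mk_of_subset h2) ?_
    refine lt_of_le_of_lt (Cardinal.mk_union_le _ _) ?_
    refine Cardinal.add_lt_of_lt hinf (Cardinal.mk_Iio_toType_ord_lt i.1) ?_
    rw [Cardinal.mk_singleton]
    exact lt_of_lt_of_le Cardinal.one_lt_aleph0 hinf
  have hcard : #s = κ.ord.cof := by
    rw [← Cardinal.card_ord κ.ord.cof, ← hs']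
    exact (Ordinal.card_type _).symm
  have hseg : ∀ i : s, #(Iio i) ≤ #C := by
    intro i
    have h2 : #(Iio i) < κ.ord.cof := by
      rw [← hcard]
      exact Cardinal.mk_Iio_lt i (by rw [hcard, hs'])
    rw [hC]
    exact Order.lt_succ_iff.mp (lt_of_lt_of_le h2 hcof1)
  have hcont : #s ≤ 2 ^ #C := by
    rw [hcard, hC]
    exact hcof1.trans (Order.succ_le_of_lt (Cardinal.cantor μ))
  obtain ⟨g, hg1, hg2⟩ := exists_star hseg hcont
  -- the colouring
  have hopt : Nonempty (Option C ≃ C) := by
    rw [← Cardinal.eq, Cardinal.mk_option]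
    exact Cardinal.add_one_eq (Cardinal.aleph0_le_mk C)
  obtain ⟨en⟩ := hopt
  let c : Sym2 κ.ord.ToType → C := Sym2.lift ⟨fun x y =>
    en (if blk x = blk y then none else some (g (min (blk x) (blk y)) (max (blk x) (blk y)))), by
      intro x y
      simp only [eq_comm, min_comm, max_comm]⟩
  have hc : ∀ x y, c s(x, y) =
      en (if blk x = blk y then none else some (g (min (blk x) (blk y)) (max (blk x) (blk y)))) :=
    fun x y => rfl
  obtain ⟨n, P, hP, hPκ⟩ := hall κ.ord.ToType (by rw [Cardinal.mk_toType, Cardinal.card_ord]) C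
    hC c
  have hPinf : ℵ₀ ≤ #P.verts := by rw [hPκ]; exact hinf
  have : Nonempty P.verts := by
    rw [← Cardinal.mk_ne_zero_iff]
    intro h0
    rw [h0] at hPinf
    exact absurd hPinf (not_le.mpr Cardinal.aleph0_pos)
  have hadj : ∀ x y : P.verts, P.coe.Adj x y → c s(x.1, y.1) = n := by
    intro x y hxy
    exact (P.adj_sub hxy).2
  obtain ⟨n', rfl⟩ := en.surjective n
  rcases n' with _ | m
  · -- the path stays in one block
    have hconst := hP.const (fun v => blk v.1) (by
      intro x y hxy
      have h := hadj x y hxy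
      rw [hc] at h
      by_contra hne
      rw [if_neg hne] at h
      exact absurd (en.injective h) (by simp))
    obtain ⟨v0⟩ := (inferInstance : Nonempty P.verts)
    have hsub : P.verts ⊆ {k | blk k = blk v0.1} := by
      intro v hv
      exact hconst ⟨v, hv⟩ v0
    have := lt_of_le_of_lt (Cardinal.mk_le_mk_of_subset hsub) (hfib _)
    rw [hPκ] at this
    exact lt_irrefl _ this
  · let ctr : κ.ord.ToType → s := fun x =>
      if h : ∃ i : s, i < blk x ∧ g i (blk x) = m then h.choose else blk x
    have hctr1 : ∀ x (i : s), i < blk x → g i (blk x) = m → ctr x = i := by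
      intro x i hi hgi
      have hex : ∃ i : s, i < blk x ∧ g i (blk x) = m := ⟨i, hi, hgi⟩
      simp only [ctr, dif_pos hex]
      exact hg1 _ _ _ hex.choose_spec.1 hi (hex.choose_spec.2.trans hgi.symm)
    have hctr2 : ∀ x (j : s), blk x < j → g (blk x) j = m → ctr x = blk x := by
      intro x j hj hgj
      have hnex : ¬ ∃ i : s, i < blk x ∧ g i (blk x) = m := by
        rintro ⟨i, hi, hgi⟩
        exact hg2 i (blk x) j hi hj (hgi.trans hgj.symm)
      simp only [ctr, dif_neg hnex]
    have hedge : ∀ x y : P.verts, P.coe.Adj x y →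
        (blk x.1 < blk y.1 ∧ g (blk x.1) (blk y.1) = m) ∨
        (blk y.1 < blk x.1 ∧ g (blk y.1) (blk x.1) = m) := by
      intro x y hxy
      have h := hadj x y hxy
      rw [hc] at h
      by_cases hne : blk x.1 = blk y.1
      · rw [if_pos hne] at h
        exact absurd (en.injective h) (by simp)
      · rw [if_neg hne] at h
        have h' := Option.some.inj (en.injective h)
        rcases lt_or_gt_of_ne hne with hlt | hlt
        · left
          refine ⟨hlt, ?_⟩
          rwa [min_eq_left hlt.le, max_eq_right hlt.le] at h'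
        · right
          refine ⟨hlt, ?_⟩
          rwa [min_eq_right hlt.le, max_eq_left hlt.le] at h'
    have hconst := hP.const (fun v => ctr v.1) (by
      intro x y hxy
      rcases hedge x y hxy with ⟨h1, h2⟩ | ⟨h1, h2⟩
      · show ctr x.1 = ctr y.1
        rw [hctr2 _ _ h1 h2, hctr1 _ _ h1 h2]
      · show ctr x.1 = ctr y.1
        rw [hctr1 _ _ h1 h2, hctr2 _ _ h1 h2])
    obtain ⟨v0⟩ := (inferInstance : Nonempty P.verts)
    have hcov := hP.cover hPinf {v : P.verts | blk v.1 = ctr v0.1} (by
      intro x y hxy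
      rcases hedge x y hxy with ⟨h1, h2⟩ | ⟨h1, h2⟩
      · left
        show blk x.1 = ctr v0.1
        rw [← hctr2 _ _ h1 h2]
        exact hconst x v0
      · right
        show blk y.1 = ctr v0.1
        rw [← hctr2 _ _ h1 h2]
        exact hconst y v0)
    have hle : #{v : P.verts | blk v.1 = ctr v0.1} ≤ #{k : κ.ord.ToType | blk k = ctr v0.1} := by
      refine Cardinal.mk_le_of_injective
        (f := fun v : {v : P.verts | blk v.1 = ctr v0.1} =>
          (⟨v.1.1, v.2⟩ : {k : κ.ord.ToType | blk k = ctr v0.1})) ?_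
      intro v v' h
      apply Subtype.ext
      apply Subtype.ext
      exact congrArg (fun z => z.1) h
    have := lt_of_le_of_lt (hcov.trans hle) (hfib _)
    rw [hPκ] at this
    exact lt_irrefl _ this

/-- With at least as many colours the property is stronger: `ℙ_μ` is contained in the class `ℙ`
for countably many colours. -/
theorem PathCards.countable {μ κ : Cardinal.{u}} (hμ : ℵ₀ ≤ μ) (hκ : κ ∈ PathCards μ) :
    κ ∈ PathCardinals.{u} := by
  classical
  obtain ⟨hinf, hall⟩ := hκ
  refine ⟨hinf, fun V hV c => ?_⟩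
  let C : Type u := μ.out
  have hC : #C = μ := Cardinal.mk_out μ
  have hCinf : Infinite C := by
    rw [Cardinal.infinite_iff, hC]
    exact hμ
  let j : ℕ ↪ C := Infinite.natEmbedding C
  obtain ⟨i, P, hP, hPκ⟩ := hall V hV C hC (fun e => j (c e))
  have hPinf : ℵ₀ ≤ #P.verts := by rw [hPκ]; exact hinf
  by_cases hi : ∃ n, j n = i
  · obtain ⟨n, rfl⟩ := hi
    have hG : colGraph (fun e => j (c e)) (j n) = colourGraph c n := by
      ext x y
      show (x ≠ y ∧ j (c s(x, y)) = j n) ↔ (x ≠ y ∧ c s(x, y) = n)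
      rw [j.injective.eq_iff]
    have key : ∀ (G G' : SimpleGraph V), G = G' →
        (∃ P : G.Subgraph, IsTransPath P.coe ∧ #P.verts = κ) →
        ∃ P : G'.Subgraph, IsTransPath P.coe ∧ #P.verts = κ := by
      rintro G G' rfl h
      exact h
    obtain ⟨P', h1, h2⟩ := key _ _ hG ⟨P, hP, hPκ⟩
    exact ⟨n, P', h1, h2⟩
  · exfalso
    have hconst := hP.cover hPinf ∅ (by
      intro x y hxy
      exact absurd ⟨_, (P.adj_sub hxy).2⟩ hi)
    rw [Cardinal.mk_emptyCollection] at hconst
    exact absurd (hPinf.trans hconst) (not_le.mpr Cardinal.aleph0_pos)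

end Pool.Agent.Y403.TP
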