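import Mathlib
import Pool.Agent.TH770.PP.Defs
import Pool.Agent.TH770.PP.J_J4

/-!
# Blocks are rich below the first fixed point of the aleph function
-/

set_option autoImplicit false

namespace Pool.Agent.Y403.TP

open Cardinal Ordinal Set Pool.Agent.TH770.PP

universe u

/-- Full traces on a set of size `γ` give traces of every smaller size `σ` on a smaller set. -/
theorem step_down {V : Type u} (N : V → Set V) {τ γ σ : Cardinal.{u}} (hτ : τ.IsRegular)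
    (hγτ : γ < τ) (hσ : ℵ₀ ≤ σ) (hσγ : σ < γ) (A W : Set V) (hA : #A = γ)
    (hW : τ ≤ #{w | w ∈ W ∧ γ ≤ #(N w ∩ A : Set V)}) :
    ∃ A', A' ⊆ A ∧ #A' < γ ∧ τ ≤ #{w | w ∈ W ∧ σ ≤ #(N w ∩ A' : Set V)} := by
  classical
  have hγ0 : ℵ₀ ≤ γ := hσ.trans hσγ.le
  obtain ⟨R, _, _, f, hR2, hR3, hR4, hR5⟩ := decomp hγ0 A hA.le
  let A' : R → Set V := fun r => {a | ∃ h : a ∈ A, f ⟨a, h⟩ ≤ r}
  have hA'A : ∀ r, A' r ⊆ A := fun r a ha => ha.1
  have hA'lt : ∀ r, #(A' r) < γ := by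
    intro r
    refine lt_of_le_of_lt ?_ (hR5 r)
    refine ⟨⟨fun a => ⟨⟨a.1, a.2.1⟩, a.2.2⟩, ?_⟩⟩
    intro x y hxy
    have := congrArg (fun z => (z.1 : V)) hxy
    exact Subtype.ext this
  have key : ∀ w, γ ≤ #(N w ∩ A : Set V) → ∃ r, σ ≤ #(N w ∩ A' r : Set V) := by
    intro w hw
    rcases hR3.eq_or_lt with hRγ | hRγ
    · -- `γ` is regular
      obtain ⟨Y, hYs, hYc⟩ := (Cardinal.le_mk_iff_exists_subset).mp (hσγ.le.trans hw)
      have hYA : ∀ y ∈ Y, y ∈ A := fun y hy => (hYs hy).2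
      have h1 : ∃ r : R, ∀ y : Y, f ⟨y, hYA y y.2⟩ ≤ r := by
        by_contra hcon
        push Not at hcon
        have h2 : (univ : Set R) ⊆ ⋃ y : Y, Iio (f ⟨y, hYA y y.2⟩) := by
          intro r _
          obtain ⟨y, hy⟩ := hcon r
          exact mem_iUnion.mpr ⟨y, hy⟩
        have h3 : #(⋃ y : Y, Iio (f ⟨y, hYA y y.2⟩) : Set R) < #R := by
          refine (Cardinal.card_iUnion_lt_iff_forall_of_isRegular hR2 ?_).mpr fun y => hR4 _
          rw [hYc, hRγ]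
          exact hσγ
        have h4 := (Cardinal.mk_le_mk_of_subset h2).trans_lt h3
        rw [Cardinal.mk_univ] at h4
        exact lt_irrefl _ h4
      obtain ⟨r, hr⟩ := h1
      refine ⟨r, ?_⟩
      rw [← hYc]
      exact Cardinal.mk_le_mk_of_subset fun y hy => ⟨(hYs hy).1, hYA y hy, hr ⟨y, hy⟩⟩
    · by_contra hcon
      push Not at hcon
      have h1 : (N w ∩ A : Set V) ⊆ ⋃ r : R, (N w ∩ A' r : Set V) := by
        rintro y ⟨hy1, hy2⟩
        rw [mem_iUnion]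
        exact ⟨f ⟨y, hy2⟩, hy1, hy2, le_rfl⟩
      have h2 : #(⋃ r : R, (N w ∩ A' r : Set V) : Set V) < γ := by
        refine (Cardinal.mk_iUnion_le_sum_mk.trans
          (Cardinal.sum_le_sum _ (fun _ => σ) fun r => (hcon r).le)).trans_lt ?_
        rw [Cardinal.sum_const']
        exact Cardinal.mul_lt_of_lt hγ0 hRγ hσγ
      exact absurd (hw.trans (Cardinal.mk_le_mk_of_subset h1)) (not_le.mpr h2)
  have hcov : {w | w ∈ W ∧ γ ≤ #(N w ∩ A : Set V)} ⊆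
      ⋃ r : R, {w | w ∈ W ∧ σ ≤ #(N w ∩ A' r : Set V)} := by
    intro w hw
    obtain ⟨r, hr⟩ := key w hw.2
    exact mem_iUnion.mpr ⟨r, hw.1, hr⟩
  have hex : ∃ r, τ ≤ #{w | w ∈ W ∧ σ ≤ #(N w ∩ A' r : Set V)} := by
    by_contra hcon
    push Not at hcon
    have h2 : #(⋃ r : R, {w | w ∈ W ∧ σ ≤ #(N w ∩ A' r : Set V)} : Set V) < τ :=
      (Cardinal.card_iUnion_lt_iff_forall_of_isRegular hτ (hR3.trans_lt hγτ)).mpr hcon
    exact absurd ((hW.trans (Cardinal.mk_le_mk_of_subset hcov)).trans_lt h2) (lt_irrefl _)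
  obtain ⟨r, hr⟩ := hex
  exact ⟨A' r, hA'A r, hA'lt r, hr⟩

/-- Below the first fixed point of the aleph function full traces on a set of size at most `θ`
give full traces on subsets of every infinite size `ρ ≤ θ`. -/
theorem full_down {V : Type u} (N : V → Set V) {τ θ ρ : Cardinal.{u}} (hτ : τ.IsRegular)
    (hθτ : θ < τ) (hfix : ∀ δ : Ordinal.{u}, ℵ_ δ ≤ θ → δ < ω_ δ) (hρ0 : ℵ₀ ≤ ρ) (hρθ : ρ ≤ θ)
    (A0 W : Set V) (hA0 : #A0 ≤ θ) (hW : τ ≤ #{w | w ∈ W ∧ θ ≤ #(N w ∩ A0 : Set V)}) :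
    ∃ A, A ⊆ A0 ∧ #A = ρ ∧ τ ≤ #{w | w ∈ W ∧ ρ ≤ #(N w ∩ A : Set V)} := by
  classical
  have hmem : ∀ (A : Set V) (σ : Cardinal.{u}), τ ≤ #{w | w ∈ W ∧ σ ≤ #(N w ∩ A : Set V)} →
      σ ≤ #A := by
    intro A σ hAσ
    have hne : {w | w ∈ W ∧ σ ≤ #(N w ∩ A : Set V)}.Nonempty := by
      rw [Set.nonempty_iff_ne_empty]
      intro h
      rw [h, Cardinal.mk_eq_zero] at hAσ
      exact absurd hτ.pos (not_lt.mpr hAσ)
    obtain ⟨w, -, hw⟩ := hne
    exact hw.trans (Cardinal.mk_le_mk_of_subset inter_subset_right)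
  let P : Cardinal.{u} → Prop := fun γ => ρ ≤ γ ∧ γ ≤ θ ∧ ∃ A, A ⊆ A0 ∧ #A = γ ∧
    τ ≤ #{w | w ∈ W ∧ γ ≤ #(N w ∩ A : Set V)}
  have hPθ : P θ := ⟨hρθ, le_rfl, A0, Subset.rfl, le_antisymm hA0 (hmem A0 θ hW), hW⟩
  obtain ⟨γ, hPγ, hmin⟩ : ∃ γ, P γ ∧ ∀ γ' < γ, ¬ P γ' := by
    have hwf : WellFounded ((· < ·) : Cardinal.{u} → Cardinal.{u} → Prop) := Cardinal.lt_wf
    refine ⟨hwf.min {γ | P γ} ⟨θ, hPθ⟩, hwf.min_mem {γ | P γ} ⟨θ, hPθ⟩, fun γ' h1 h2 => ?_⟩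
    exact hwf.not_lt_min {γ | P γ} h2 h1
  obtain ⟨hργ, hγθ, A, hAA0, hAγ, hAτ⟩ := hPγ
  rcases hργ.eq_or_lt with h | hlt
  · subst h
    exact ⟨A, hAA0, hAγ, hAτ⟩
  exfalso
  have hγτ : γ < τ := hγθ.trans_lt hθτ
  obtain ⟨δ, rfl⟩ := Cardinal.mem_range_aleph_iff.mpr (hρ0.trans hργ)
  rcases Ordinal.zero_or_succ_or_isSuccLimit δ with rfl | ⟨ε, rfl⟩ | hlim
  · rw [Cardinal.aleph_zero] at hlt
    exact absurd hlt (not_lt.mpr hρ0)
  · -- a successor cardinal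
    have hs : (ℵ_ (Order.succ ε) : Cardinal.{u}) = Order.succ (ℵ_ ε) := by
      rw [Order.succ_eq_add_one]
      exact (Cardinal.succ_aleph ε).symm
    have hlt' : (ℵ_ ε : Cardinal.{u}) < ℵ_ (Order.succ ε) := by rw [hs]; exact Order.lt_succ _
    obtain ⟨A', h1, h2, h3⟩ := step_down N hτ hγτ (Cardinal.aleph0_le_aleph ε) hlt' A W hAγ hAτ
    have h4 : #A' = ℵ_ ε := by
      refine le_antisymm ?_ (hmem A' _ h3)
      rw [hs] at h2
      exact Order.lt_succ_iff.mp h2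
    refine hmin _ hlt' ⟨?_, hlt'.le.trans hγθ, A', h1.trans hAA0, h4, h3⟩
    rw [hs] at hlt
    exact Order.lt_succ_iff.mp hlt
  · -- a limit cardinal
    have hδ : δ < ω_ δ := hfix δ hγθ
    have hδc : δ.card < ℵ_ δ := by
      rw [← Cardinal.lt_ord, Cardinal.ord_aleph]
      exact hδ
    set σ : Cardinal.{u} := Order.succ (max ρ δ.card) with hσdef
    have hσreg : σ.IsRegular := isRegular_succ (hρ0.trans (le_max_left _ _))
    have hρσ : ρ < σ := (le_max_left _ _).trans_lt (Order.lt_succ _)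
    have hδσ : δ.card < σ := (le_max_right _ _).trans_lt (Order.lt_succ _)
    have hσγ : σ < ℵ_ δ := by
      have hl : Order.IsSuccLimit (ℵ_ δ : Cardinal.{u}) := Cardinal.isNormal_aleph.map_isSuccLimit hlim
      exact hl.succ_lt (max_lt hlt hδc)
    obtain ⟨A', h1, h2, h3⟩ := step_down N hτ hγτ hσreg.aleph0_le hσγ A W hAγ hAτ
    obtain ⟨A'', h4, h5, h6⟩ := hereditary N hτ (h2.trans hγτ) hσreg (by
      intro γ' hγ' hσγ' hc
      by_cases hr : γ'.IsRegular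
      · rw [hr.cof_ord] at hc
        exact hσγ'.ne' hc
      · have h0 : ℵ₀ ≤ γ' := hσreg.aleph0_le.trans hσγ'.le
        obtain ⟨δ', rfl⟩ := Cardinal.mem_range_aleph_iff.mpr h0
        have h1 : (ℵ_ δ').IsSingular := Cardinal.IsSingular.of_not_isRegular h0 hr
        have hlim' : Order.IsSuccLimit δ' := (Cardinal.isSingular_aleph_iff.mp h1).1
        have hδ' : δ' < δ := Cardinal.aleph_lt_aleph.mp (hγ'.trans_lt h2)
        rw [Cardinal.ord_aleph, Ordinal.cof_omega hlim'] at hc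
        have h7 := Ordinal.cof_le_card δ'
        rw [hc] at h7
        exact absurd (h7.trans (Ordinal.card_le_card hδ'.le)) (not_le.mpr hδσ)) A' W le_rfl h3
    exact hmin σ hσγ ⟨hρσ.le, hσγ.le.trans hγθ, A'', (h4.trans h1).trans hAA0, h5, h6⟩

/-- Every block below the first fixed point of the aleph function is rich. -/
theorem rich_of' {V : Type u} {G : SimpleGraph V} {B W : Set V} {θ : Cardinal.{u}}
    (hreg : θ.IsRegular) (hunc : ℵ₀ < θ) (hfix : ∀ δ : Ordinal.{u}, ℵ_ δ ≤ θ → δ < ω_ δ)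
    (hB : #B ≤ θ)
    (hcommon : ∀ a ∈ B, ∀ b ∈ B, a ≠ b →
      θ ≤ #(G.neighborSet a ∩ G.neighborSet b : Set V))
    (hW : θ < #W) (hexit : ∀ w ∈ W, θ ≤ #(G.neighborSet w ∩ B : Set V)) :
    Rich G B W θ := by
  classical
  have hWne : ∃ w, w ∈ W := by
    by_contra hcon
    push Not at hcon
    have : #W = 0 := by
      rw [Cardinal.mk_eq_zero_iff]
      exact ⟨fun x => hcon x.1 x.2⟩
    rw [this] at hW
    exact not_lt_bot hW
  refine ⟨hreg, hunc, ?_, hcommon, hexit, ?_⟩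
  · obtain ⟨w, hw⟩ := hWne
    exact (hexit w hw).trans (Cardinal.mk_le_mk_of_subset inter_subset_right)
  · intro ρ hρ hρθ F hF
    set τ : Cardinal.{u} := Order.succ θ with hτdef
    have hτ : τ.IsRegular := isRegular_succ hreg.aleph0_le
    have hθτ : θ < τ := Order.lt_succ θ
    have hWτ : τ ≤ #W := Order.succ_le_of_lt hW
    set A0 : Set V := B \ F with hA0def
    have hA0 : #A0 ≤ θ := (Cardinal.mk_le_mk_of_subset sdiff_subset).trans hB
    have hexit' : ∀ w ∈ W, θ ≤ #(G.neighborSet w ∩ A0 : Set V) := by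
      intro w hw
      by_contra hcon
      rw [not_le] at hcon
      have h1 : (G.neighborSet w ∩ B : Set V) ⊆ (G.neighborSet w ∩ A0) ∪ F := by
        rintro x ⟨hx1, hx2⟩
        by_cases hxF : x ∈ F
        · exact Or.inr hxF
        · exact Or.inl ⟨hx1, hx2, hxF⟩
      have h2 := (hexit w hw).trans (Cardinal.mk_le_mk_of_subset h1)
      exact absurd h2 (not_le.2 (union_lt hreg.aleph0_le hcon hF))
    obtain ⟨A, hA1, hA2, hA3⟩ := full_down G.neighborSet hτ hθτ hfix hρ.aleph0_le hρθ.le A0 W hA0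
      (hWτ.trans (Cardinal.mk_le_mk_of_subset fun w hw => ⟨hw, hexit' w hw⟩))
    refine ⟨A, fun x hx => (hA1 hx).1, ?_, hA2, hθτ.le.trans hA3⟩
    exact Set.disjoint_left.2 (fun x hx hxF => (hA1 hx).2 hxF)

end Pool.Agent.Y403.TP
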