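import Mathlib
import Pool.Agent.H38R3.TPMain
import Pool.Agent.Y403.TP.Neg

/-!
# Singular strong limit cardinals of cofinality at least `μ⁺⁺` are in `ℙ_μ`
-/

set_option autoImplicit false

namespace Pool.Agent.Y403.TP

open Cardinal Ordinal Set Pool.H38R3.TransPath

universe u

/-- Canonization of a colouring with `μ` colours on a rapidly growing sequence of blocks. -/
theorem canonization' {I C : Type u} [LinearOrder I] [Infinite C] (B : I → Type u)
    (D : (Σ i, B i) → (Σ i, B i) → C)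
    (hreg : ∀ i, (#(B i)).IsRegular)
    (h1 : ∀ i, (2 : Cardinal.{u}) ^ (#C * Cardinal.sum (fun j : Iio i => #(B j.1))) < #(B i))
    (h2 : ∀ i, (2 : Cardinal.{u}) ^ (#C * #I) < #(B i)) :
    ∃ (A : ∀ i, Set (B i)) (g : I → I → C), (∀ i, #(B i) ≤ #(A i)) ∧
      ∀ j i, j < i → ∀ x ∈ A j, ∀ y ∈ A i, D ⟨j, x⟩ ⟨i, y⟩ = g j i := by
  classical
  have hpow : ∀ x : Cardinal.{u}, #C ^ x ≤ (2 : Cardinal.{u}) ^ (#C * x) := by
    intro x
    rw [Cardinal.power_mul]
    exact Cardinal.power_le_power_right (Cardinal.cantor #C).le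
  let T : ∀ i, B i → ((Σ j : Iio i, B j.1) → C) := fun i y x => D ⟨x.1.1, x.2⟩ ⟨i, y⟩
  have hT : ∀ i, ∃ f : (Σ j : Iio i, B j.1) → C, #(B i) ≤ #(T i ⁻¹' {f}) := by
    intro i
    refine Cardinal.infinite_pigeonhole_card (T i) #(B i) le_rfl (hreg i).aleph0_le ?_
    rw [(hreg i).cof_ord]
    refine lt_of_le_of_lt ?_ (h1 i)
    have : #((Σ j : Iio i, B j.1) → C) = #C ^ (Cardinal.sum (fun j : Iio i => #(B j.1))) := by
      simp
    rw [this]
    exact hpow _
  choose f hf using hT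
  let U : ∀ j, (T j ⁻¹' {f j}) → (Ioi j → C) := fun j x i => f i.1 ⟨⟨j, i.2⟩, x.1⟩
  have hU : ∀ j, ∃ g : Ioi j → C, #(B j) ≤ #(U j ⁻¹' {g}) := by
    intro j
    refine Cardinal.infinite_pigeonhole_card (U j) #(B j) (hf j) (hreg j).aleph0_le ?_
    rw [(hreg j).cof_ord]
    refine lt_of_le_of_lt ?_ (h2 j)
    have : #(Ioi j → C) = #C ^ #(Ioi j) := by simp
    rw [this]
    refine (hpow _).trans ?_
    refine Cardinal.power_le_power_left two_ne_zero ?_
    gcongr
    exact Cardinal.mk_set_le _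
  choose g hg using hU
  have c0 : C := Classical.arbitrary C
  refine ⟨fun j => Subtype.val '' (U j ⁻¹' {g j}), fun j i => if h : j < i then g j ⟨i, h⟩ else c0,
    ?_, ?_⟩
  · intro i
    rw [Cardinal.mk_image_eq Subtype.val_injective]
    exact hg i
  · rintro j i hji x ⟨x', hx', rfl⟩ y ⟨y', hy', rfl⟩
    simp only [dif_pos hji]
    have e1 : T i y'.1 = f i := y'.2
    have e2 : U j x' = g j := hx'
    have e3 := congrFun e1 ⟨⟨j, hji⟩, x'.1⟩
    have e4 := congrFun e2 ⟨i, hji⟩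
    exact e3.trans e4

/-- A rapidly growing sequence of regular cardinals below a singular strong limit cardinal. -/
theorem exists_lam' {μ κ : Cardinal.{u}} (hμ : ℵ₀ ≤ μ) (hμκ : μ < κ) (hκ : κ.IsStrongLimit)
    (hsing : κ.ord.cof < κ) :
    ∃ (I : Type u) (_ : LinearOrder I) (_ : WellFoundedLT I) (lam : I → Cardinal.{u}),
      #I = κ.ord.cof ∧ Order.cof I = κ.ord.cof ∧
      (∀ i, (lam i).IsRegular) ∧ (∀ i, lam i < κ) ∧ (∀ i j, i ≤ j → lam i ≤ lam j) ∧
      (∀ ρ < κ, ∃ i, ρ < lam i) ∧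
      (∀ i, (2 : Cardinal.{u}) ^ (μ * Cardinal.sum (fun j : Iio i => lam j.1)) < lam i) ∧
      (∀ i, (2 : Cardinal.{u}) ^ (μ * #I) < lam i) := by
  classical
  have hinf : ℵ₀ ≤ κ := hκ.aleph0_le
  have hμ0 : μ ≠ 0 := (Cardinal.aleph0_pos.trans_le hμ).ne'
  obtain ⟨s, hs, hs'⟩ := Ordinal.exists_ord_cof_eq κ.ord.ToType
  rw [Ordinal.cof_toType] at hs'
  have hcard : #s = κ.ord.cof := by
    rw [← Cardinal.card_ord κ.ord.cof, ← hs']
    exact (Ordinal.card_type _).symm
  have hwf : WellFounded ((· < ·) : s → s → Prop) := wellFounded_lt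
  let F : (ξ : s) → ((η : s) → η < ξ → Cardinal.{u}) → Cardinal.{u} := fun ξ rec =>
    Order.succ (max ((2 : Cardinal.{u}) ^ (μ * #s))
      (max #(Set.Iio ξ.1) ((2 : Cardinal.{u}) ^ (μ * Cardinal.sum (fun j : Iio ξ => rec j.1 j.2)))))
  let lam : s → Cardinal.{u} := hwf.fix F
  have hlam : ∀ ξ, lam ξ = Order.succ (max ((2 : Cardinal.{u}) ^ (μ * #s))
      (max #(Set.Iio ξ.1) ((2 : Cardinal.{u}) ^ (μ * Cardinal.sum (fun j : Iio ξ => lam j.1))))) :=
    fun ξ => hwf.fix_eq F ξ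
  have hA : ∀ ξ, (2 : Cardinal.{u}) ^ (μ * #s) < lam ξ := by
    intro ξ
    rw [hlam, Order.lt_succ_iff]
    exact le_max_left _ _
  have hB : ∀ ξ : s, #(Set.Iio ξ.1) < lam ξ := by
    intro ξ
    rw [hlam, Order.lt_succ_iff]
    exact (le_max_left _ _).trans (le_max_right _ _)
  have hC : ∀ ξ, (2 : Cardinal.{u}) ^ (μ * Cardinal.sum (fun j : Iio ξ => lam j.1)) < lam ξ := by
    intro ξ
    conv_rhs => rw [hlam]
    rw [Order.lt_succ_iff]
    exact (le_max_right _ _).trans (le_max_right _ _)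
  have hsmall : ∀ ξ : s, #(Iio ξ) < κ.ord.cof := by
    intro ξ
    rw [← hcard]
    exact Cardinal.mk_Iio_lt ξ (by rw [hcard, hs'])
  have hlt : ∀ ξ, lam ξ < κ := by
    intro ξ
    induction ξ using hwf.induction with
    | _ ξ ih =>
      rw [hlam]
      refine hκ.isSuccLimit.succ_lt (max_lt ?_ (max_lt ?_ ?_))
      · refine hκ.isStrongPrelimit (Cardinal.mul_lt_of_lt hinf hμκ ?_)
        rw [hcard]
        exact hsing
      · exact Cardinal.mk_Iio_toType_ord_lt ξ.1
      · refine hκ.isStrongPrelimit (Cardinal.mul_lt_of_lt hinf hμκ ?_)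
        refine lt_of_le_of_lt (Cardinal.sum_le_mk_mul_iSup _) ?_
        refine Cardinal.mul_lt_of_lt hinf ((hsmall ξ).trans hsing) ?_
        exact Cardinal.iSup_lt_of_lt_cof_ord (hsmall ξ) (fun j => ih j.1 j.2)
  have hmono' : ∀ i j : s, i < j → lam i < lam j := by
    intro i j hij
    have h1 : lam i ≤ Cardinal.sum (fun j' : Iio j => lam j'.1) :=
      Cardinal.le_sum (fun j' : Iio j => lam j'.1) ⟨i, hij⟩
    have h2 : Cardinal.sum (fun j' : Iio j => lam j'.1) ≤
        μ * Cardinal.sum (fun j' : Iio j => lam j'.1) :=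
      Cardinal.le_mul_left hμ0
    exact lt_of_le_of_lt (h1.trans (h2.trans (Cardinal.cantor _).le)) (hC j)
  refine ⟨s, inferInstance, inferInstance, lam, hcard, ?_, ?_, hlt, ?_, ?_, hC, hA⟩
  · rw [Order.cof_eq_of_isCofinal hs, Ordinal.cof_toType]
  · intro i
    rw [hlam]
    refine Cardinal.isRegular_succ ?_
    refine le_trans ?_ (le_max_left _ _)
    refine le_trans ?_ (Cardinal.cantor _).le
    have hs0 : #s ≠ 0 := by
      rw [hcard]
      intro h
      rw [Ordinal.cof_eq_zero, Cardinal.ord_eq_zero] at h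
      rw [h] at hinf
      exact absurd hinf (not_le.mpr Cardinal.aleph0_pos)
    exact hμ.trans (Cardinal.le_mul_right hs0)
  · intro i j hij
    rcases lt_or_eq_of_le hij with h | h
    · exact (hmono' i j h).le
    · rw [h]
  · intro ρ hρ
    -- an element `x` with at least `ρ` predecessors
    have h1 : ρ.ord < Ordinal.type ((· < ·) : κ.ord.ToType → κ.ord.ToType → Prop) := by
      rw [Ordinal.type_toType]
      exact Cardinal.ord_lt_ord.mpr hρ
    obtain ⟨x, hx⟩ : ∃ x, Ordinal.typein ((· < ·) : κ.ord.ToType → κ.ord.ToType → Prop) x = ρ.ord :=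
      Ordinal.typein_surj _ h1
    obtain ⟨i, hi, hxi⟩ := hs x
    refine ⟨⟨i, hi⟩, lt_of_le_of_lt ?_ (hB ⟨i, hi⟩)⟩
    have h2 : ρ = #(Set.Iio x) := by
      rw [← Cardinal.card_ord ρ, ← hx]
      exact Ordinal.card_typein _
    rw [h2]
    exact Cardinal.mk_le_mk_of_subset (Set.Iio_subset_Iio hxi)

/-- The graph on the index set formed by the pairs of colour `n`. -/
def pairG {I C : Type u} [LinearOrder I] (g : I → I → C) (n : C) : SimpleGraph I where
  Adj x y := (x < y ∧ g x y = n) ∨ (y < x ∧ g y x = n)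
  symm := ⟨fun _ _ h => h.symm⟩
  loopless := ⟨fun _ h => by rcases h with h | h <;> exact lt_irrefl _ h.1⟩

/-- If every subset of size at most `μ⁺` is bounded, some colour class has a connected component
whose edges have unbounded least points. -/
theorem exists_component' {I C : Type u} [LinearOrder I] [Infinite C]
    (hb : ∀ T : Set I, #T ≤ Order.succ #C → ∃ b, ∀ t ∈ T, t < b) (g : I → I → C) :
    ∃ n i0, ∀ β, ∃ a b, β ≤ a ∧ a < b ∧ g a b = n ∧ (pairG g n).Reachable i0 a := by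
  classical
  by_contra hcon
  push Not at hcon
  choose β hβ using hcon
  have hC : ℵ₀ ≤ #C := Cardinal.aleph0_le_mk C
  let Ω := (Order.succ #C).ord.ToType
  have hΩ : #Ω = Order.succ #C := by simp [Ω]
  have hstep : ∀ (ξ : Ω) (rec : (η : Ω) → η < ξ → I),
      #(Set.range (fun p : Iio ξ × C => β p.2 (rec p.1 p.1.2))) ≤ Order.succ #C := by
    intro ξ rec
    have h1 : #(Iio ξ) ≤ #C := by
      rw [← Order.lt_succ_iff]
      exact lt_of_lt_of_eq (Cardinal.mk_Iio_lt ξ (by simp [Ω])) hΩ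
    refine (Cardinal.mk_range_le.trans ?_).trans (Order.le_succ _)
    rw [Cardinal.mk_prod, Cardinal.lift_id, Cardinal.lift_id]
    exact Cardinal.mul_le_of_le hC h1 le_rfl
  have hwf : WellFounded ((· < ·) : Ω → Ω → Prop) := wellFounded_lt
  let F : (ξ : Ω) → ((η : Ω) → η < ξ → I) → I := fun ξ rec =>
    Classical.choose (hb _ (hstep ξ rec))
  let x : Ω → I := hwf.fix F
  have hx : ∀ ξ η, η < ξ → ∀ n, β n (x η) < x ξ := by
    intro ξ η hη n
    have h1 : x ξ = F ξ (fun η _ => x η) := hwf.fix_eq F ξ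
    rw [h1]
    exact Classical.choose_spec (hb _ (hstep ξ (fun η _ => x η))) _
      ⟨(⟨η, hη⟩, n), rfl⟩
  obtain ⟨δ, hδ⟩ := hb (Set.range x) (Cardinal.mk_range_le.trans hΩ.le)
  have hninj : ¬ Function.Injective (fun ξ : Ω => g (x ξ) δ) := by
    intro hinj
    have h1 : #Ω ≤ #C := Cardinal.mk_le_of_injective hinj
    rw [hΩ] at h1
    exact absurd (Order.lt_succ #C) (not_lt.mpr h1)
  have hpair : ∃ η ξ : Ω, η < ξ ∧ g (x η) δ = g (x ξ) δ := by
    rw [Function.not_injective_iff] at hninj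
    obtain ⟨a, b, h1, h2⟩ := hninj
    rcases lt_or_gt_of_ne h2 with h | h
    · exact ⟨a, b, h, h1⟩
    · exact ⟨b, a, h, h1.symm⟩
  obtain ⟨η, ξ, hηξ, hg⟩ := hpair
  set n := g (x η) δ with hn
  have hη : x η < δ := hδ _ ⟨η, rfl⟩
  have hξ : x ξ < δ := hδ _ ⟨ξ, rfl⟩
  have h1 : (pairG g n).Adj (x η) δ := Or.inl ⟨hη, rfl⟩
  have h2 : (pairG g n).Adj δ (x ξ) := Or.inr ⟨hξ, hg.symm⟩
  exact hβ n (x η) (x ξ) δ (hx ξ η hηξ n).le hξ hg.symm (h1.reachable.trans h2.reachable)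

/-- Every singular strong limit cardinal of cofinality at least `μ⁺⁺` is in `ℙ_μ`. -/
theorem mem_of_strongLimit' {μ κ : Cardinal.{u}} (hμ : ℵ₀ ≤ μ) (hκ : κ.IsStrongLimit)
    (hsing : κ.ord.cof < κ) (hcof : Order.succ (Order.succ μ) ≤ κ.ord.cof) :
    κ ∈ PathCards μ := by
  classical
  have hinf : ℵ₀ ≤ κ := hκ.aleph0_le
  have hμκ : μ < κ :=
    ((Order.lt_succ μ).trans (Order.lt_succ _)).trans_le (hcof.trans hsing.le)
  refine ⟨hinf, ?_⟩
  intro V hV C hC c
  have hCinf : Infinite C := by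
    rw [Cardinal.infinite_iff, hC]
    exact hμ
  obtain ⟨I, hlin, hwf, lam, hI, hcofI, hreg, hlt, hmono, hsup, hC', hA⟩ :=
    exists_lam' hμ hμκ hκ hsing
  rw [← hC] at hC' hA
  let B : I → Type u := fun i => (lam i).out
  have hB : ∀ i, #(B i) = lam i := fun i => Cardinal.mk_out _
  have hsum : #(Σ i, B i) ≤ #V := by
    rw [Cardinal.mk_sigma, hV]
    calc Cardinal.sum (fun i => #(B i)) = Cardinal.sum lam := by simp only [hB]
      _ ≤ Cardinal.sum (fun _ : I => κ) := Cardinal.sum_le_sum _ _ (fun i => (hlt i).le)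
      _ = #I * κ := by simp
      _ ≤ κ * κ := by gcongr; rw [hI]; exact hsing.le
      _ = κ := Cardinal.mul_eq_self hinf
  obtain ⟨e⟩ := hsum
  obtain ⟨A, g, hA1, hA2⟩ := canonization' B (fun x y => c s(e x, e y))
    (fun i => by rw [hB]; exact hreg i)
    (fun i => by
      simp only [hB]
      exact hC' i)
    (fun i => by rw [hB]; exact hA i)
  have hbdd : ∀ T : Set I, #T ≤ Order.succ #C → ∃ b, ∀ t ∈ T, t < b := by
    intro T hT
    by_contra hcon
    push Not at hcon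
    have hcofT : IsCofinal T := fun x => by
      obtain ⟨t, ht, hxt⟩ := hcon x
      exact ⟨t, ht, hxt⟩
    have h1 := Order.cof_le hcofT
    rw [hcofI] at h1
    rw [hC] at hT
    exact absurd (hcof.trans (h1.trans hT)) (not_le.mpr (Order.lt_succ _))
  obtain ⟨n, i0, hn⟩ := exists_component' hbdd g
  obtain ⟨L, hL1, hL2, b, hpath, hfib, hcard⟩ := exists_block_sequence κ hinf lam
    (fun i => (hlt i).le) hmono hsup
    (fun i => by
      have h1 := hA i
      have h2 : #I ≤ #C * #I := Cardinal.le_mul_left (Cardinal.mk_ne_zero C)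
      exact (h2.trans (Cardinal.cantor _).le).trans h1.le)
    (fun i => (hreg i).aleph0_le) (pairG g n) i0
    (fun β => by
      obtain ⟨x, y, h1, h2, h3, h4⟩ := hn β
      exact ⟨x, y, h1, h1.trans h2.le, Or.inl ⟨h2, h3⟩, h4⟩)
  have hinj : ∀ j, Nonempty ({x : L // b x = j} ↪ A j) := by
    intro j
    have h1 : #{x : L // b x = j} ≤ #(A j) :=
      (hfib j).trans ((hB j).symm.le.trans (hA1 j))
    exact h1
  let ι : ∀ j, {x : L // b x = j} ↪ A j := fun j => Classical.choice (hinj j)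
  let p : L → V := fun x => e ⟨b x, (ι (b x) ⟨x, rfl⟩).1⟩
  have hp : Function.Injective p := by
    intro x y hxy
    have h1 := e.injective hxy
    have h2 : b x = b y := congrArg Sigma.fst h1
    have h3 : ∀ (j : I) (hj : b x = j) (hj' : b y = j),
        (⟨b x, (ι (b x) ⟨x, rfl⟩).1⟩ : Σ i, B i) = ⟨b y, (ι (b y) ⟨y, rfl⟩).1⟩ → x = y := by
      intro j hj hj' h
      have e1 : (⟨b x, (ι (b x) ⟨x, rfl⟩).1⟩ : Σ i, B i) = ⟨j, (ι j ⟨x, hj⟩).1⟩ := by
        subst hj
        rfl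
      have e2 : (⟨b y, (ι (b y) ⟨y, rfl⟩).1⟩ : Σ i, B i) = ⟨j, (ι j ⟨y, hj'⟩).1⟩ := by
        subst hj'
        rfl
      rw [e1, e2] at h
      have h4 : (ι j ⟨x, hj⟩).1 = (ι j ⟨y, hj'⟩).1 := by
        simpa using h
      have h5 := (ι j).injective (Subtype.ext h4)
      exact congrArg Subtype.val h5
    exact h3 (b y) h2 rfl h1
  have hedge : ∀ z x : L, (pairG g n).Adj (b z) (b x) →
      (colGraph c n).Adj (p z) (p x) := by
    intro z x hzx
    have hne : b z ≠ b x := hzx.ne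
    refine ⟨fun h => hne (by rw [hp h]), ?_⟩
    rcases hzx with ⟨h1, h2⟩ | ⟨h1, h2⟩
    · have := hA2 (b z) (b x) h1 _ (ι (b z) ⟨z, rfl⟩).2 _ (ι (b x) ⟨x, rfl⟩).2
      exact this.trans h2
    · have := hA2 (b x) (b z) h1 _ (ι (b x) ⟨x, rfl⟩).2 _ (ι (b z) ⟨z, rfl⟩).2
      rw [Sym2.eq_swap]
      exact this.trans h2
  let P : (colGraph c n).Subgraph := (⊤ : (colGraph c n).Subgraph).induce (Set.range p)
  let φ : P.verts ≃ L := (Equiv.ofInjective p hp).symm
  have hφ : ∀ v : P.verts, p (φ v) = v.1 := fun v =>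
    congrArg Subtype.val ((Equiv.ofInjective p hp).apply_symm_apply v)
  refine ⟨n, P, ⟨fun v w => φ v < φ w, ?_, ?_⟩, ?_⟩
  · exact (RelEmbedding.preimage φ.toEmbedding ((· < ·) : L → L → Prop)).isWellOrder
  · intro v u huv
    obtain ⟨z, hz1, hz2, hz3⟩ := hpath (φ v) (φ u) huv
    refine ⟨φ.symm z, ?_, ?_, ?_⟩
    · rcases lt_or_eq_of_le hz1 with h | h
      · right
        show φ u < φ (φ.symm z)
        rw [Equiv.apply_symm_apply]
        exact h
      · left
        rw [← h, Equiv.symm_apply_apply]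
    · show φ (φ.symm z) < φ v
      rw [Equiv.apply_symm_apply]
      exact hz2
    · have h1 := hedge z (φ v) hz3
      have h2 : (φ.symm z).1 = p z := by
        rw [← hφ (φ.symm z), Equiv.apply_symm_apply]
      rw [SimpleGraph.Subgraph.coe_adj, SimpleGraph.Subgraph.induce_adj]
      refine ⟨(φ.symm z).2, v.2, ?_⟩
      rw [SimpleGraph.Subgraph.top_adj, h2, ← hφ v]
      exact h1
  · rw [← hcard]
    exact Cardinal.mk_congr φ

end Pool.Agent.Y403.TP
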