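import Mathlib
import Pool.Agent.Y403.TP.Neg
import Pool.Agent.TH770.PP.J_K1

/-!
# Successors of cardinals of small cofinality are not in `ℙ_μ`
-/

set_option autoImplicit false

namespace Pool.Agent.Y403.TP

open Cardinal Ordinal Set Pool.H38R3.TransPath Pool.Agent.TH770.PP

universe u

section

variable {Ω : Type u} [LinearOrder Ω] [WellFoundedLT Ω]

omit [WellFoundedLT Ω] in
theorem Iic_lt (hunc : ℵ₀ < #Ω) (hi : ∀ x : Ω, #(Iio x) < #Ω) (x : Ω) :
    #(Iic x) < #Ω := by
  have h : Iic x = Iio x ∪ {x} := by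
    rw [Iio_union_right]
  rw [h]
  exact (Cardinal.mk_union_le _ _).trans_lt (Cardinal.add_lt_of_lt hunc.le (hi x)
    ((Cardinal.mk_singleton x).trans_lt (Cardinal.one_lt_aleph0.trans hunc)))

omit [WellFoundedLT Ω] in
theorem bdd_of_small (hreg : (#Ω).IsRegular) (hunc : ℵ₀ < #Ω)
    (hi : ∀ x : Ω, #(Iio x) < #Ω) (S : Set Ω) (hS : #S < #Ω) : ∃ m, ∀ s ∈ S, s < m := by
  by_contra hcon
  push Not at hcon
  have h1 : (⋃ s : S, Iic (s : Ω)) = Set.univ := by
    rw [eq_univ_iff_forall]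
    intro x
    obtain ⟨s, hs, hxs⟩ := hcon x
    exact mem_iUnion.mpr ⟨⟨s, hs⟩, hxs⟩
  have h2 : #(⋃ s : S, Iic (s : Ω)) < #Ω :=
    (card_iUnion_lt_iff_forall_of_isRegular hreg hS).mpr fun s => Iic_lt hunc hi _
  rw [h1, mk_univ] at h2
  exact lt_irrefl _ h2

/-- closed points of prescribed cofinality -/
theorem exists_closed_cof (hreg : (#Ω).IsRegular) (hunc : ℵ₀ < #Ω)
    (hi : ∀ x : Ω, #(Iio x) < #Ω) (f : Ω → Ω) (lam : Cardinal.{u}) (hlam : lam.IsRegular)
    (hlt : lam < #Ω) :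
    ∃ δ : Ω, (∃ β, β < δ) ∧ (∀ β < δ, f β < δ) ∧
      ∀ S : Set Ω, S ⊆ Iio δ → #S < lam → ∃ β < δ, ∀ s ∈ S, s < β := by
  classical
  -- strict bounds
  have hF : ∀ β : Ω, ∃ m : Ω, β < m ∧ ∀ γ ≤ β, f γ < m := by
    intro β
    have hs1 : #(f '' Iic β) < #Ω := Cardinal.mk_image_le.trans_lt (Iic_lt hunc hi β)
    have hs2 : #(f '' Iic β ∪ {β} : Set Ω) < #Ω :=
      (Cardinal.mk_union_le _ _).trans_lt (Cardinal.add_lt_of_lt hunc.le hs1
        ((Cardinal.mk_singleton _).trans_lt (Cardinal.one_lt_aleph0.trans hunc)))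
    obtain ⟨m, hm⟩ := bdd_of_small hreg hunc hi _ hs2
    exact ⟨m, hm _ (Or.inr rfl), fun γ hγ => hm _ (Or.inl ⟨γ, hγ, rfl⟩)⟩
  choose F hF1 hF2 using hF
  have hne : Nonempty Ω := by
    rw [← Cardinal.mk_ne_zero_iff]
    exact (Cardinal.aleph0_pos.trans hunc).ne'
  set K := lam.ord.ToType with hK
  have hKi : ∀ i : K, #(Iio i) < lam := fun i => by
    have h1 : Ordinal.type ((· < ·) : K → K → Prop) = lam.ord := Ordinal.type_toType _
    have h2 : #K = lam := by simp [hK]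
    have := Cardinal.mk_Iio_lt (α := K) i (by rw [h1, h2])
    rwa [h2] at this
  obtain ⟨a, ha⟩ := wf_rec (K := K) (X := Ω) (fun i g x => ∀ j < i, F (g j) < x)
    (fun k g g' x hgg h j hj => by rw [← hgg j hj]; exact h j hj)
    (fun k g _ => by
      have hs : #((fun j => F (g j)) '' Iio k) < #Ω :=
        Cardinal.mk_image_le.trans_lt ((hKi k).trans hlt)
      obtain ⟨m, hm⟩ := bdd_of_small hreg hunc hi _ hs
      exact ⟨m, fun j hj => hm _ ⟨j, hj, rfl⟩⟩)
  -- an upper bound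
  have hra : #(range a) < #Ω := by
    refine Cardinal.mk_range_le.trans_lt ?_
    simpa [hK] using hlt
  obtain ⟨m, hm⟩ := bdd_of_small hreg hunc hi _ hra
  have hwf : WellFounded ((· < ·) : Ω → Ω → Prop) := wellFounded_lt
  let U : Set Ω := {x | ∀ i, a i < x}
  have hU : U.Nonempty := ⟨m, fun i => hm _ ⟨i, rfl⟩⟩
  let δ := hwf.min U hU
  have hδ : ∀ i, a i < δ := hwf.min_mem U hU
  have hδmin : ∀ β < δ, ∃ i, β ≤ a i := by
    intro β hβ
    by_contra hcon
    push Not at hcon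
    exact hwf.not_lt_min U (x := β) hcon hβ
  -- `K` has no last element
  have hinf : ℵ₀ ≤ lam := hlam.aleph0_le
  have hnolast : ∀ S : Set K, #S < lam → ∃ j, ∀ i ∈ S, i < j := by
    intro S hS
    by_contra hcon
    push Not at hcon
    have h1 : (⋃ s : S, Iic (s : K)) = Set.univ := by
      rw [eq_univ_iff_forall]
      intro x
      obtain ⟨s, hs, hxs⟩ := hcon x
      exact mem_iUnion.mpr ⟨⟨s, hs⟩, hxs⟩
    have h2 : #(⋃ s : S, Iic (s : K)) < lam := by
      refine (card_iUnion_lt_iff_forall_of_isRegular hlam hS).mpr fun s => ?_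
      have h : Iic (s : K) = Iio (s : K) ∪ {(s : K)} := by
        rw [Iio_union_right]
      rw [h]
      exact (Cardinal.mk_union_le _ _).trans_lt (Cardinal.add_lt_of_lt hinf (hKi _)
        ((Cardinal.mk_singleton _).trans_lt (Cardinal.one_lt_aleph0.trans_le hinf)))
    rw [h1, mk_univ] at h2
    simp [hK] at h2
  refine ⟨δ, ?_, ?_, ?_⟩
  · obtain ⟨j, -⟩ := hnolast ∅ (by
      rw [Cardinal.mk_eq_zero]
      exact Cardinal.aleph0_pos.trans_le hinf)
    exact ⟨a j, hδ j⟩
  · intro β hβ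
    obtain ⟨i, hi'⟩ := hδmin β hβ
    obtain ⟨j, hj⟩ := hnolast {i} (by
      rw [Cardinal.mk_singleton]
      exact Cardinal.one_lt_aleph0.trans_le hinf)
    have h1 : F (a i) < a j := ha j i (hj i rfl)
    exact ((hF2 (a i) β hi').trans h1).trans (hδ j)
  · intro S hS hScard
    have hch : ∀ s : S, ∃ i, (s : Ω) ≤ a i := fun s => hδmin s (hS s.2)
    choose ι hι using hch
    obtain ⟨j, hj⟩ := hnolast (range ι) (Cardinal.mk_range_le.trans_lt hScard)
    refine ⟨a j, hδ j, fun s hs => ?_⟩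
    have h1 : F (a (ι ⟨s, hs⟩)) < a j := ha j _ (hj _ ⟨_, rfl⟩)
    exact ((hι ⟨s, hs⟩).trans_lt (hF1 _)).trans h1

end

/-- Successors of cardinals of cofinality at most `μ` are not in the class `ℙ_μ`. -/
theorem succ_not_mem_of_cof_le {μ lam : Cardinal.{u}} (hlam : ℵ₀ ≤ lam)
    (hcof : lam.ord.cof ≤ μ) : Order.succ lam ∉ PathCards μ := by
  classical
  rintro ⟨-, hmem⟩
  let C : Type u := μ.out
  have hC : #C = μ := Cardinal.mk_out μ
  set Ω := (Order.succ lam).ord.ToType with hΩdef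
  have hΩ : #Ω = Order.succ lam := by simp [hΩdef]
  have hreg : (#Ω).IsRegular := by
    rw [hΩ]; exact Cardinal.isRegular_succ hlam
  have hunc : ℵ₀ < #Ω := by
    rw [hΩ]; exact Order.lt_succ_of_le hlam
  have hi : ∀ x : Ω, #(Iio x) < #Ω := fun x => by
    have h1 : Ordinal.type ((· < ·) : Ω → Ω → Prop) = (Order.succ lam).ord :=
      Ordinal.type_toType _
    exact Cardinal.mk_Iio_lt (α := Ω) x (by rw [h1, hΩ])
  -- the cofinal sequence in `lam`
  set M := lam.ord.ToType with hM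
  obtain ⟨S, hScof, hScard⟩ := Order.exists_cof_eq M
  have hScount : #S ≤ #C := by
    rw [hScard, hC]
    exact (Ordinal.cof_toType _).trans_le hcof
  obtain ⟨e0⟩ := hScount
  -- injections
  have hinj : ∀ v : Ω, ∃ e : Iio v → M, Function.Injective e := by
    intro v
    have h1 : #(Iio v) ≤ lam := Order.lt_succ_iff.mp ((hi v).trans_eq hΩ)
    have h2 : #(Iio v) ≤ #M := by simpa [hM] using h1
    obtain ⟨e⟩ := h2
    exact ⟨e, e.injective⟩
  choose e he using hinj
  have hex : ∀ (v : Ω) (x : Iio v), ∃ s : S, e v x ≤ (s : M) := by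
    intro v x
    obtain ⟨s, hs, hxs⟩ := hScof (e v x)
    exact ⟨⟨s, hs⟩, hxs⟩
  have hSne : Nonempty S := by
    have : Nonempty M := by
      rw [← Cardinal.mk_ne_zero_iff]
      intro h0
      have h1 : #M = lam := by simp [hM]
      rw [h1] at h0
      rw [h0] at hlam
      exact absurd hlam (not_le.mpr Cardinal.aleph0_pos)
    obtain ⟨m⟩ := this
    obtain ⟨s, hs, -⟩ := hScof m
    exact ⟨⟨s, hs⟩⟩
  let s0 : S := Classical.arbitrary S
  let col : Ω → Ω → S := fun u v => if h : u < v then (hex v ⟨u, h⟩).choose else s0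
  let c : Sym2 Ω → C := fun p => Sym2.lift ⟨fun x y => e0 (col (min x y) (max x y)), fun x y => by
    simp only [min_comm, max_comm]⟩ p
  obtain ⟨n', P, hP, hPcard⟩ := hmem Ω hΩ C hC c
  -- the colour is in the range of `e0`
  have hPinf : ℵ₀ ≤ #P.verts := by
    rw [hPcard]
    exact hlam.trans (Order.le_succ _)
  obtain ⟨n, rfl⟩ : ∃ n, e0 n = n' := by
    by_contra hcon
    have hconst := hP.cover hPinf ∅ (by
      intro x y hxy
      exact absurd ⟨_, (P.adj_sub hxy).2⟩ hcon)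
    have h0 : #(∅ : Set P.verts) = 0 := Cardinal.mk_eq_zero _
    rw [h0] at hconst
    exact absurd (hPinf.trans hconst) (not_le.mpr Cardinal.aleph0_pos)
  obtain ⟨f, hf⟩ := path_club hreg hunc hi _ P hP (hPcard.trans hΩ.symm)
  -- number of colour-`n` neighbours
  have hν : #(Iic (n : M)) < lam := by
    have h : Iic (n : M) = Iio (n : M) ∪ {(n : M)} := by
      rw [Iio_union_right]
    have h3 : #(Iio (n : M)) < lam := by
      have h1 : Ordinal.type ((· < ·) : M → M → Prop) = lam.ord := Ordinal.type_toType _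
      have h2 : #M = lam := by simp [hM]
      have := Cardinal.mk_Iio_lt (α := M) (n : M) (by rw [h1, h2])
      rwa [h2] at this
    rw [h]
    exact (Cardinal.mk_union_le _ _).trans_lt (Cardinal.add_lt_of_lt hlam h3
      ((Cardinal.mk_singleton _).trans_lt (Cardinal.one_lt_aleph0.trans_le hlam)))
  obtain ⟨rho, hlamreg, hlam1, hlam2⟩ : ∃ rho : Cardinal.{u}, rho.IsRegular ∧
      #(Iic (n : M)) < rho ∧ rho ≤ lam := by
    by_cases hfin : #(Iic (n : M)) < ℵ₀
    · exact ⟨ℵ₀, Cardinal.isRegular_aleph0, hfin, hlam⟩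
    · push Not at hfin
      exact ⟨Order.succ #(Iic (n : M)), Cardinal.isRegular_succ hfin, Order.lt_succ _,
        Order.succ_le_of_lt hν⟩
  obtain ⟨δ, hδne, hδcl, hδcof⟩ := exists_closed_cof hreg hunc hi f rho hlamreg (by
    rw [hΩ]; exact Order.lt_succ_of_le hlam2)
  obtain ⟨v, hv, hvn⟩ := hf δ hδcl
  -- the neighbours of `v` below `δ`
  let N : Set Ω := {η | η < δ ∧ (colGraph c (e0 n)).Adj η v}
  have hNcard : #N ≤ #(Iic (n : M)) := by
    have hNlt : ∀ η : N, (η : Ω) < v := fun η => η.2.1.trans_le hv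
    have hNe : ∀ η : N, e v ⟨η, hNlt η⟩ ≤ (n : M) := by
      intro η
      have h1 : c s((η : Ω), v) = e0 n := η.2.2.2
      have h2 : c s((η : Ω), v) = e0 (col η v) := by
        simp only [c, Sym2.lift_mk, min_eq_left (hNlt η).le, max_eq_right (hNlt η).le]
      have h3 : col η v = (hex v ⟨η, hNlt η⟩).choose := by
        simp only [col, dif_pos (hNlt η)]
      have h4 := (hex v ⟨η, hNlt η⟩).choose_spec
      rw [← h3, e0.injective (h2.symm.trans h1)] at h4
      exact h4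
    refine Cardinal.mk_le_of_injective
      (f := fun η : N => (⟨e v ⟨η, hNlt η⟩, hNe η⟩ : Iic (n : M))) ?_
    intro a b hab
    have h1 := congrArg Subtype.val hab
    have h2 := congrArg Subtype.val (he v h1)
    exact Subtype.ext h2
  obtain ⟨β, hβδ, hβ⟩ := hδcof N (fun η hη => hη.1) (hNcard.trans_lt hlam1)
  obtain ⟨η, hη1, hη2, hη3⟩ := hvn β hβδ
  exact absurd (hβ η ⟨hη2, hη3⟩) (not_lt.mpr hη1)

end Pool.Agent.Y403.TP
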