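import Mathlib
import Pool.Agent.H38R3.TPDefs
import Pool.Agent.TH770.PP.NegMain
import Pool.Agent.Y403.TP.Neg
import Pool.Agent.Y403.TP.Succ
import Pool.Agent.Y403.TP.Pos
import Pool.Agent.Y403.TP.AlephMain

/-!
# Elements of `ℙ_{ℵ_α}` below `ℵ_{ω_{α+2}}`
-/

set_option autoImplicit false

namespace Pool.Agent.Y403.TP

open Cardinal Ordinal Set Pool.H38R3.TransPath Pool.Agent.TH770.PP

universe u

/-- `ℙ_{ℵ₀}` is the class `ℙ` for colourings with values in `ℕ`. -/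
theorem pathCards_aleph0 : PathCards.{u} ℵ₀ = PathCardinals.{u} := by
  ext κ
  refine ⟨fun h => PathCards.countable le_rfl h, ?_⟩
  rintro ⟨hinf, hall⟩
  refine ⟨hinf, fun V hV C hC c => ?_⟩
  have he : Nonempty (C ≃ ℕ) := by
    rw [← Cardinal.lift_mk_eq']
    simp [hC]
  obtain ⟨e⟩ := he
  obtain ⟨i, P, hP, hPκ⟩ := hall V hV (fun x => e (c x))
  have hG : colourGraph (fun x => e (c x)) i = colGraph c (e.symm i) := by
    ext x y
    show (x ≠ y ∧ e (c s(x, y)) = i) ↔ (x ≠ y ∧ c s(x, y) = e.symm i)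
    rw [Equiv.eq_symm_apply]
  have key : ∀ (G G' : SimpleGraph V), G = G' →
      (∃ P : G.Subgraph, IsTransPath P.coe ∧ #P.verts = κ) →
      ∃ P : G'.Subgraph, IsTransPath P.coe ∧ #P.verts = κ := by
    rintro G G' rfl h
    exact h
  obtain ⟨P', h1, h2⟩ := key _ _ hG ⟨P, hP, hPκ⟩
  exact ⟨e.symm i, P', h1, h2⟩

/-- Every element of `ℙ_{ℵ_α}` below `ℵ_{ω_{α+2}}` is the successor of a singular cardinal of
cofinality `ℵ_{α+1}`. -/
theorem below {α : Ordinal.{u}} {κ : Cardinal.{u}} (hκ : κ ∈ PathCards.{u} (ℵ_ α))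
    (hlt : κ < ℵ_ (ω_ (α + 2))) :
    ℵ_ (ω_ (α + 1) + 1) ≤ κ ∧
      ∃ μ : Cardinal.{u}, κ = Order.succ μ ∧ ℵ_ (α + 1) < μ ∧ μ.ord.cof = ℵ_ (α + 1) := by
  classical
  have h2 : (ℵ_ (α + 2) : Cardinal.{u}) ≤ κ.ord.cof := by
    rw [aleph_add_two]
    exact succ_succ_le_cof (Cardinal.aleph0_le_aleph α) hκ
  have hinf : ℵ₀ ≤ κ := hκ.1
  have h0 : κ ∈ PathCardinals.{u} := PathCards.countable (Cardinal.aleph0_le_aleph α) hκ
  obtain ⟨ε, rfl⟩ := Cardinal.mem_range_aleph_iff.mpr hinf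
  have hε : ε < ω_ (α + 2) := Cardinal.aleph_lt_aleph.mp hlt
  have hcardlt : ∀ δ : Ordinal.{u}, δ < ω_ (α + 2) → δ.card < ℵ_ (α + 2) := by
    intro δ hδ
    rw [← Cardinal.lt_ord, Cardinal.ord_aleph]
    exact hδ
  have hsucc : ∃ β, ε = β + 1 := by
    rcases Ordinal.zero_or_succ_or_isSuccLimit ε with rfl | ⟨β, rfl⟩ | hlim
    · exfalso
      rw [Cardinal.aleph_zero, isRegular_aleph0.cof_ord, ← Cardinal.aleph_zero,
        Cardinal.aleph_le_aleph, add_two_eq] at h2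
      exact absurd h2 (not_le.mpr ((zero_le.trans_lt (lt_add_one (α + 1)))))
    · exact ⟨β, rfl⟩
    · exfalso
      rw [Cardinal.ord_aleph, Ordinal.cof_omega hlim] at h2
      exact absurd (h2.trans (Ordinal.cof_le_card ε)) (not_le.mpr (hcardlt ε hε))
  obtain ⟨β, rfl⟩ := hsucc
  set μ : Cardinal.{u} := ℵ_ β with hμdef
  have hκμ : (ℵ_ (β + 1) : Cardinal.{u}) = Order.succ μ := (Cardinal.succ_aleph β).symm
  have hμinf : ℵ₀ ≤ μ := Cardinal.aleph0_le_aleph β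
  obtain ⟨hsing, -, -⟩ := succ_mem hμinf (hκμ ▸ h0)
  have hβlim : Order.IsSuccLimit β := by
    rcases Ordinal.zero_or_succ_or_isSuccLimit β with rfl | ⟨γ, rfl⟩ | hlim
    · exfalso
      apply hsing
      rw [hμdef, Cardinal.aleph_zero]
      exact isRegular_aleph0
    · exfalso
      apply hsing
      rw [hμdef]
      exact isRegular_aleph_succ γ
    · exact hlim
  have hcofβ : μ.ord.cof = β.cof := by rw [hμdef, Cardinal.ord_aleph, Ordinal.cof_omega hβlim]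
  have hcof1 : μ.ord.cof ≤ ℵ_ (α + 1) := by
    rw [hcofβ]
    refine (Ordinal.cof_le_card β).trans ?_
    have h3 : β.card < ℵ_ (α + 2) := hcardlt β ((lt_add_one β).trans hε)
    rw [add_two_eq, ← Cardinal.succ_aleph] at h3
    exact Order.lt_succ_iff.mp h3
  have hcofeq : μ.ord.cof = ℵ_ (α + 1) := by
    refine le_antisymm hcof1 ?_
    rw [← Cardinal.succ_aleph]
    refine Order.succ_le_of_lt ?_
    by_contra hcon
    exact succ_not_mem_of_cof_le hμinf (not_lt.mp hcon) (hκμ ▸ hκ)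
  refine ⟨?_, μ, hκμ, ?_, hcofeq⟩
  · rw [Cardinal.aleph_le_aleph]
    have hβ : ω_ (α + 1) ≤ β := by
      have h6 : (ℵ_ (α + 1) : Cardinal.{u}) ≤ β.card := by
        rw [← hcofeq, hcofβ]
        exact Ordinal.cof_le_card β
      rw [← Cardinal.ord_aleph]
      exact Cardinal.ord_le.mpr h6
    exact add_le_add_left hβ 1
  · have h5 : μ.ord.cof < μ := by
      refine lt_of_le_of_ne (Ordinal.cof_ord_le μ) ?_
      intro h
      exact hsing ⟨hμinf, h.ge⟩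
    rwa [hcofeq] at h5

theorem cof_omega_add_two (β : Ordinal.{u}) : (ω_ (β + 2)).cof = ℵ_ (β + 2) := by
  rw [add_two_eq]
  exact Cardinal.cof_omega_add_one (β + 1)

theorem add_two_lt (β : Ordinal.{u}) : β + 2 < ω_ (β + 2) := by
  have hlim : Order.IsSuccLimit (ω_ (β + 2) : Ordinal.{u}) := isSuccLimit_omega _
  have h := hlim.add_one_lt (hlim.add_one_lt (lt_omega_self_of β))
  rwa [← add_two_eq] at h

theorem isSingular_aleph_omega (β : Ordinal.{u}) :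
    (ℵ_ (ω_ (β + 2)) : Cardinal.{u}).IsSingular := by
  rw [Cardinal.isSingular_aleph_iff]
  refine ⟨isSuccLimit_omega _, ?_⟩
  rw [cof_omega_add_two]
  exact Cardinal.aleph_lt_aleph.mpr (add_two_lt β)

/-- `ℙ_μ` is unbounded. -/
theorem exists_mem_gt {μ : Cardinal.{u}} (hμ : ℵ₀ ≤ μ) (ν : Cardinal.{u}) :
    ∃ κ ∈ PathCards μ, ν < κ := by
  obtain ⟨β, hβ⟩ := Cardinal.mem_range_aleph_iff.mpr (hμ.trans (le_max_left μ ν))
  have hlim : Order.IsSuccLimit (ω_ (β + 2) : Ordinal.{u}) := isSuccLimit_omega _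
  have hcof : (ℶ_ (ω_ (β + 2))).ord.cof = ℵ_ (β + 2) := by
    have h := Ordinal.cof_map_of_isNormal (Cardinal.isNormal_ord.comp Cardinal.isNormal_beth) hlim
    rw [← cof_omega_add_two]
    exact h
  have hlt : (ℵ_ (β + 2) : Cardinal.{u}) < ℶ_ (ω_ (β + 2)) :=
    lt_of_lt_of_le (Cardinal.aleph_lt_aleph.mpr (add_two_lt β)) (Cardinal.aleph_le_beth _)
  have hμβ : μ ≤ ℵ_ β := hβ ▸ le_max_left μ ν
  have hνβ : ν ≤ ℵ_ β := hβ ▸ le_max_right μ ν
  refine ⟨ℶ_ (ω_ (β + 2)), mem_of_strongLimit' hμ ?_ ?_ ?_, ?_⟩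
  · rw [Cardinal.isStrongLimit_beth]
    exact hlim.isSuccPrelimit
  · rw [hcof]; exact hlt
  · rw [hcof, aleph_add_two]
    exact Order.succ_le_succ (Order.succ_le_succ hμβ)
  · refine hνβ.trans_lt (lt_of_le_of_lt ?_ hlt)
    rw [Cardinal.aleph_le_aleph]
    exact le_self_add

end Pool.Agent.Y403.TP
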